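import Pool.Agent.Q166.DS.UpF

/-!
# The lower bound for the area
-/

set_option autoImplicit false

namespace Pool.Agent.Q166.DS

open Set Filter Topology MeasureTheory

theorem pow_sub_lower {p q : ℝ} (hp : 0 ≤ p) (hq : 0 ≤ q) (N : ℕ) (hN : 1 ≤ N) :
    |p - q| * p ^ (N - 1) ≤ |p ^ N - q ^ N| := by
  obtain ⟨M, rfl⟩ : ∃ M, N = M + 1 := ⟨N - 1, by omega⟩
  rw [Nat.add_sub_cancel]
  rcases le_total q p with h | h
  · have h1 : q ^ M ≤ p ^ M := pow_le_pow_left₀ hq h M
    rw [abs_of_nonneg (by linarith), abs_of_nonneg (by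
      have := pow_le_pow_left₀ hq h (M + 1)
      linarith), pow_succ, pow_succ]
    nlinarith
  · have h1 : p ^ M ≤ q ^ M := pow_le_pow_left₀ hp h M
    rw [abs_of_nonpos (by linarith), abs_of_nonpos (by
      have := pow_le_pow_left₀ hp h (M + 1)
      linarith), pow_succ, pow_succ]
    nlinarith

variable {m n k : ℕ} {C θ₁ : ℝ}

/-- points near the curve -/
theorem near (hn : Odd n) (hk : 1 ≤ k) (_hC : 0 < C + 2 * k * θ₁) :
    ∃ K : ℝ, 1 ≤ K ∧ ∃ δ : ℝ, 0 < δ ∧ ∀ a b : ℝ, 0 ≤ a → 0 < b → b < δ → a ^ m ≤ b ^ n →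
      ∃ z ∈ Gam m n k C θ₁, dist (⟨a, b⟩ : ℂ) z ≤ K * b ^ (2 * k * n + 1) := by
  have hpi := Real.pi_pos
  have hpi3 := Real.pi_gt_three
  have hk' : (1 : ℝ) ≤ k := by exact_mod_cast hk
  set M : ℝ := max (max (8 * Real.pi * k) (C + 2 * k * (θ₁ + 2 * Real.pi))) 1 with hM
  have hM1 : 1 ≤ M := le_max_right _ _
  have hM2 : 8 * Real.pi * k ≤ M := (le_max_left _ _).trans (le_max_left _ _)
  have hM3 : C + 2 * k * (θ₁ + 2 * Real.pi) ≤ M := (le_max_right _ _).trans (le_max_left _ _)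
  set K : ℝ := 24 * Real.pi * k * 2 ^ (2 * k + 2) with hK
  have hK1 : 1 ≤ K := by
    have h1 : (1 : ℝ) ≤ 2 ^ (2 * k + 2) := one_le_pow₀ (by norm_num)
    have h2 : 1 ≤ 24 * Real.pi * k := by nlinarith
    rw [hK]
    nlinarith
  refine ⟨K, hK1, 1 / (2 * M), by positivity, ?_⟩
  intro a b ha hb hbδ hab
  have hn0 : 0 < n := hn.pos
  have hb1 : b < 1 := by
    refine hbδ.trans_le ?_
    rw [div_le_one (by positivity)]
    linarith
  have hbn : 0 < b ^ n := pow_pos hb n
  have hbnb : b ^ n ≤ b := by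
    calc b ^ n ≤ b ^ 1 := pow_le_pow_of_le_one hb.le hb1.le hn0
      _ = b := pow_one b
  set Rs : ℝ := Real.sqrt ((b ^ n) ^ 2 + (a ^ m) ^ 2) with hRs
  have hRsq : Rs ^ 2 = (b ^ n) ^ 2 + (a ^ m) ^ 2 := Real.sq_sqrt (by positivity)
  have ham : 0 ≤ a ^ m := pow_nonneg ha m
  have hRs0 : 0 < Rs := Real.sqrt_pos.2 (by positivity)
  have hRs1 : b ^ n ≤ Rs := Real.le_sqrt_of_sq_le (by nlinarith)
  have hRs2 : Rs ≤ 2 * b ^ n := by
    rw [hRs, Real.sqrt_le_left (by positivity)]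
    nlinarith
  have hRs3 : a ^ m ≤ Rs := hab.trans hRs1
  set us : ℝ := (Rs ^ (2 * k))⁻¹ with hus
  have hus0 : 0 < us := by positivity
  have husM : M ≤ us := by
    have h1 : Rs < 1 / M := by
      have : 2 * b ^ n < 1 / M := by
        have h2 : 2 * b < 1 / M := by
          rw [lt_div_iff₀ (by positivity)] at hbδ ⊢
          linarith
        linarith
      linarith
    have hRs11 : Rs ≤ 1 := by
      refine h1.le.trans ?_
      rw [div_le_one (by positivity)]
      exact hM1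
    have h2 : Rs ^ (2 * k) ≤ 1 / M := by
      calc Rs ^ (2 * k) ≤ Rs ^ 1 := pow_le_pow_of_le_one hRs0.le hRs11 (by omega)
        _ = Rs := pow_one _
        _ ≤ 1 / M := h1.le
    rw [hus, le_inv_comm₀ (by positivity) (by positivity)]
    rwa [one_div] at h2
  have hRsu : Rs ^ (2 * k) * us = 1 := mul_inv_cancel₀ (by positivity)
  have hRsRf : Rs = Rf k us := (Rf_eq hk hRs0 hRsu).2
  set ts : ℝ := (us - C) / (2 * k) with hts
  have htsu : C + 2 * k * ts = us := by
    rw [hts]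
    field_simp
    ring
  set j : ℤ := ⌊ts / (2 * Real.pi)⌋ with hj
  have hj1 : j * (2 * Real.pi) ≤ ts := by
    have := Int.floor_le (ts / (2 * Real.pi))
    rwa [le_div_iff₀ (by positivity)] at this
  have hj2 : ts < (j + 1) * (2 * Real.pi) := by
    have := Int.lt_floor_add_one (ts / (2 * Real.pi))
    rwa [div_lt_iff₀ (by positivity)] at this
  set s₀ : ℝ := j * (2 * Real.pi) with hs₀
  have hlow : ∀ s, s₀ ≤ s → us / 2 ≤ C + 2 * k * s := by
    intro s hs
    have h1 : 2 * k * (ts - 2 * Real.pi) ≤ 2 * k * s := by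
      apply mul_le_mul_of_nonneg_left _ (by positivity)
      linarith
    nlinarith
  have hpos : ∀ s, s₀ ≤ s → 0 < C + 2 * k * s := fun s hs => lt_of_lt_of_le (by positivity) (hlow s hs)
  -- intermediate value
  have hcont : ContinuousOn (fun s => Rf k (C + 2 * k * s) * Real.cos s) (Icc s₀ (s₀ + Real.pi / 2)) := by
    apply ContinuousOn.mul _ Real.continuous_cos.continuousOn
    unfold Rf
    apply ContinuousOn.rpow_const
    · fun_prop
    · intro s hs
      left
      exact (hpos s hs.1).ne'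
  have hcos0 : Real.cos s₀ = 1 := by
    rw [hs₀]
    exact Real.cos_int_mul_two_pi j
  have hcos1 : Real.cos (s₀ + Real.pi / 2) = 0 := by
    rw [hs₀, add_comm, Real.cos_add_int_mul_two_pi]
    exact Real.cos_pi_div_two
  obtain ⟨t, ht, hta⟩ := intermediate_value_Icc' (show s₀ ≤ s₀ + Real.pi / 2 by linarith) hcont
    (show a ^ m ∈ Icc _ _ from ⟨by simp only [hcos1, mul_zero]; exact ham, by
      simp only [hcos0, mul_one]
      refine hRs3.trans ?_
      rw [hRsRf]
      apply Rf_anti (hpos s₀ le_rfl)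
      rw [← htsu]
      have : 2 * (k : ℝ) * s₀ ≤ 2 * k * ts := mul_le_mul_of_nonneg_left hj1 (by positivity)
      linarith⟩)
  simp only at hta
  set u : ℝ := C + 2 * k * t with hu
  set R : ℝ := Rf k u with hR
  have hu0 : 0 < u := hpos t ht.1
  have hR0 : 0 < R := Rf_pos hu0
  have hRu : R ^ (2 * k) * u = 1 := by
    rw [hR, Rf_pow hk hu0]
    exact inv_mul_cancel₀ hu0.ne'
  have hsin : 0 ≤ Real.sin t := by
    have e : Real.sin t = Real.sin (t - s₀) := by
      rw [hs₀, Real.sin_sub_int_mul_two_pi]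
    rw [e]
    apply Real.sin_nonneg_of_nonneg_of_le_pi
    · linarith [ht.1]
    · linarith [ht.2]
  set η : ℝ := R * Real.sin t with hη
  have hη0 : 0 ≤ η := mul_nonneg hR0.le hsin
  have hη2 : η ^ 2 = R ^ 2 - (a ^ m) ^ 2 := by
    rw [hη, ← hta]
    have := Real.sin_sq_add_cos_sq t
    linear_combination R ^ 2 * this
  set y : ℝ := rt n η with hy
  have hy0 : 0 ≤ y := rt_nonneg hη0
  have hyn : y ^ n = η := rt_pow hn η
  refine ⟨⟨a, y⟩, ?_, ?_⟩
  · refine ⟨t, R, ?_, hR0, hRu, ?_, ?_⟩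
    · have h1 : C + 2 * k * (θ₁ + 2 * Real.pi) ≤ C + 2 * k * ts := by
        rw [htsu]
        exact hM3.trans husM
      have h2 : θ₁ + 2 * Real.pi ≤ ts := by
        have h3 : 2 * (k : ℝ) * (θ₁ + 2 * Real.pi) ≤ 2 * k * ts := by linarith
        exact le_of_mul_le_mul_left h3 (by positivity)
      have := ht.1
      linarith
    · exact hta.symm
    · exact hyn
  · -- the distance
    have hd : dist (⟨a, b⟩ : ℂ) ⟨a, y⟩ = |b - y| := by
      rw [Complex.dist_eq]
      have e : (⟨a, b⟩ : ℂ) - ⟨a, y⟩ = ((b - y : ℝ) : ℂ) * Complex.I := by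
        apply Complex.ext <;> simp
      rw [e, norm_mul, Complex.norm_I, mul_one, Complex.norm_real, Real.norm_eq_abs]
    rw [hd]
    have hulow : us / 2 ≤ u := hlow t ht.1
    have hudiff : |us - u| ≤ 4 * Real.pi * k := by
      have e : us - u = 2 * k * (ts - t) := by rw [hu, ← htsu]; ring
      rw [e, abs_mul, abs_of_nonneg (by positivity : 0 ≤ 2 * (k : ℝ))]
      have h1 : |ts - t| ≤ 2 * Real.pi := by
        rw [abs_le]
        constructor
        · linarith [ht.2, hj1]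
        · linarith [ht.1, hj2]
      calc 2 * (k : ℝ) * |ts - t| ≤ 2 * k * (2 * Real.pi) :=
            mul_le_mul_of_nonneg_left h1 (by positivity)
        _ = _ := by ring
    have hRp : R ^ (2 * k) = u⁻¹ := eq_inv_of_mul_eq_one_left hRu
    have hRsp : Rs ^ (2 * k) = us⁻¹ := eq_inv_of_mul_eq_one_left hRsu
    have hR2 : R ^ (2 * k) ≤ 2 * Rs ^ (2 * k) := by
      rw [hRp, hRsp]
      have : u⁻¹ ≤ (us / 2)⁻¹ := inv_anti₀ (by positivity) hulow
      rwa [inv_div, div_eq_mul_inv] at this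
    have hRle : R ≤ 2 * Rs := by
      by_contra hcon
      push Not at hcon
      have h1 := pow_lt_pow_left₀ hcon (by positivity) (show 2 * k ≠ 0 by omega)
      rw [mul_pow] at h1
      have h2 : (2 : ℝ) ≤ 2 ^ (2 * k) := by
        calc (2 : ℝ) = 2 ^ 1 := (pow_one 2).symm
          _ ≤ 2 ^ (2 * k) := pow_le_pow_right₀ (by norm_num) (by omega)
      have h3 : 0 < Rs ^ (2 * k) := by positivity
      nlinarith
    have hdiff : |Rs ^ (2 * k) - R ^ (2 * k)| ≤ 8 * Real.pi * k * (Rs ^ (2 * k) * Rs ^ (2 * k)) := by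
      have e : Rs ^ (2 * k) - R ^ (2 * k) = (u - us) * (Rs ^ (2 * k) * R ^ (2 * k)) := by
        have h1 : R ^ (2 * k) * u * Rs ^ (2 * k) = Rs ^ (2 * k) := by rw [hRu, one_mul]
        have h2 : Rs ^ (2 * k) * us * R ^ (2 * k) = R ^ (2 * k) := by rw [hRsu, one_mul]
        linear_combination -h1 + h2
      rw [e, abs_mul, abs_of_nonneg (by positivity : 0 ≤ Rs ^ (2 * k) * R ^ (2 * k)), abs_sub_comm]
      calc |us - u| * (Rs ^ (2 * k) * R ^ (2 * k))
          ≤ (4 * Real.pi * k) * (Rs ^ (2 * k) * (2 * Rs ^ (2 * k))) := by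
            apply mul_le_mul hudiff _ (by positivity) (by positivity)
            exact mul_le_mul_of_nonneg_left hR2 (by positivity)
        _ = _ := by ring
    have hRR : |Rs - R| ≤ 8 * Real.pi * k * Rs ^ (2 * k + 1) := by
      have h1 := pow_sub_lower hRs0.le hR0.le (2 * k) (by omega)
      have h2 : 0 < Rs ^ (2 * k - 1) := by positivity
      have h3 : |Rs - R| * Rs ^ (2 * k - 1) ≤ (8 * Real.pi * k * Rs ^ (2 * k + 1)) * Rs ^ (2 * k - 1) := by
        refine (h1.trans hdiff).trans (le_of_eq ?_)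
        have e : Rs ^ (2 * k) * Rs ^ (2 * k) = Rs ^ (2 * k + 1) * Rs ^ (2 * k - 1) := by
          rw [← pow_add, ← pow_add]
          congr 1
          omega
        rw [e]
        ring
      exact le_of_mul_le_mul_right h3 h2
    have hηb : |b ^ n - η| ≤ 24 * Real.pi * k * 2 ^ (2 * k + 2) * (b ^ n) ^ (2 * k + 1) := by
      have h1 : |b ^ n - η| * (b ^ n) ≤ |Rs - R| * (3 * Rs) := by
        have e : (b ^ n - η) * (b ^ n + η) = (Rs - R) * (Rs + R) := by
          have : (b ^ n) ^ 2 - η ^ 2 = Rs ^ 2 - R ^ 2 := by rw [hη2, hRsq]; ring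
          linear_combination this
        have e2 := congrArg abs e
        rw [abs_mul, abs_mul, abs_of_nonneg (by positivity : 0 ≤ b ^ n + η),
          abs_of_nonneg (by positivity : 0 ≤ Rs + R)] at e2
        calc |b ^ n - η| * (b ^ n) ≤ |b ^ n - η| * (b ^ n + η) :=
              mul_le_mul_of_nonneg_left (by linarith) (abs_nonneg _)
          _ = |Rs - R| * (Rs + R) := e2
          _ ≤ |Rs - R| * (3 * Rs) := mul_le_mul_of_nonneg_left (by linarith) (abs_nonneg _)
      have h2 : |b ^ n - η| * (b ^ n) ≤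
          (24 * Real.pi * k * 2 ^ (2 * k + 2) * (b ^ n) ^ (2 * k + 1)) * (b ^ n) := by
        calc _ ≤ |Rs - R| * (3 * Rs) := h1
          _ ≤ (8 * Real.pi * k * Rs ^ (2 * k + 1)) * (3 * Rs) :=
              mul_le_mul_of_nonneg_right hRR (by positivity)
          _ = 24 * Real.pi * k * Rs ^ (2 * k + 2) := by ring
          _ ≤ 24 * Real.pi * k * (2 * b ^ n) ^ (2 * k + 2) :=
              mul_le_mul_of_nonneg_left (pow_le_pow_left₀ hRs0.le hRs2 _) (by positivity)
          _ = _ := by rw [mul_pow]; ring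
      exact le_of_mul_le_mul_right h2 hbn
    have h1 := pow_sub_lower hb.le hy0 n hn0
    rw [hyn] at h1
    have h2 : 0 < b ^ (n - 1) := by positivity
    have h3 : |b - y| * b ^ (n - 1) ≤ (K * b ^ (2 * k * n + 1)) * b ^ (n - 1) := by
      refine (h1.trans hηb).trans (le_of_eq ?_)
      have e : (b ^ n) ^ (2 * k + 1) = b ^ (2 * k * n + 1) * b ^ (n - 1) := by
        rw [← pow_mul, ← pow_add]
        congr 1
        obtain ⟨n', rfl⟩ : ∃ n', n = n' + 1 := ⟨n - 1, by omega⟩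
        rw [Nat.add_sub_cancel]
        ring
      rw [e, hK]
      ring
    exact le_of_mul_le_mul_right h3 h2

theorem volume_rect (A τ : ℝ) (_hA : 0 ≤ A) :
    volume {w : ℂ | (0 ≤ w.re ∧ w.re ≤ A) ∧ (τ / 4 ≤ w.im ∧ w.im ≤ τ / 2)} =
      ENNReal.ofReal A * ENNReal.ofReal (τ / 4) := by
  have h := Complex.volume_preserving_equiv_real_prod
  have e : {w : ℂ | (0 ≤ w.re ∧ w.re ≤ A) ∧ (τ / 4 ≤ w.im ∧ w.im ≤ τ / 2)} =
      Complex.measurableEquivRealProd ⁻¹' (Icc 0 A ×ˢ Icc (τ / 4) (τ / 2)) := by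
    ext w
    simp only [mem_ofPred_eq, mem_preimage, mem_prod, mem_Icc, Complex.measurableEquivRealProd_apply]
  rw [e, h.measure_preimage (measurableSet_Icc.prod measurableSet_Icc).nullMeasurableSet]
  rw [Measure.volume_eq_prod, Measure.prod_prod, Real.volume_Icc, Real.volume_Icc]
  congr 2 <;> ring_nf

theorem lower_final (hm : Odd m) (hn : Odd n) (hk : 1 ≤ k) (hC : 0 < C + 2 * k * θ₁) :
    ∃ c : ℝ, 0 < c ∧ ∃ ε₀ : ℝ, 0 < ε₀ ∧ ∀ ε : ℝ, 0 < ε → ε ≤ ε₀ → ∀ S : Set ℂ,
      Gam m n k C θ₁ ⊆ S → ENNReal.ofReal (c * ε ^ qq m n k) ≤ volume (Metric.cthickening ε S) := by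
  obtain ⟨K, hK, δ, hδ, H⟩ := near (m := m) hn hk hC
  have hm0 : (1 : ℝ) ≤ m := by exact_mod_cast hm.pos
  have hn0 : (1 : ℝ) ≤ n := by exact_mod_cast hn.pos
  have hk0 : (1 : ℝ) ≤ k := by exact_mod_cast hk
  set e₀ : ℝ := 1 / (1 + 2 * k * n) with he₀
  have hD : 0 < 1 + 2 * (k : ℝ) * n := by positivity
  have he0 : 0 < e₀ := by positivity
  refine ⟨((1 / K) ^ e₀ / 4) ^ ((n : ℝ) / m + 1), by positivity, K * δ ^ (2 * k * n + 1), by positivity, ?_⟩
  intro ε hε hε1 S hS
  set τ : ℝ := (ε / K) ^ e₀ with hτ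
  have hτ0 : 0 < τ := by positivity
  have hτp : K * τ ^ (2 * k * n + 1) = ε := by
    rw [hτ, ← Real.rpow_natCast, ← Real.rpow_mul (by positivity)]
    have : e₀ * ((2 * k * n + 1 : ℕ) : ℝ) = 1 := by
      rw [he₀]
      push_cast
      field_simp
      ring
    rw [this, Real.rpow_one]
    field_simp
  have hτδ : τ ≤ δ := by
    have h1 : τ ^ (2 * k * n + 1) ≤ δ ^ (2 * k * n + 1) := by
      have : K * τ ^ (2 * k * n + 1) ≤ K * δ ^ (2 * k * n + 1) := by rw [hτp]; exact hε1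
      exact le_of_mul_le_mul_left this (by linarith)
    exact (pow_le_pow_iff_left₀ hτ0.le hδ.le (by omega)).1 h1
  set A : ℝ := (τ / 4) ^ ((n : ℝ) / m) with hA
  have hA0 : 0 ≤ A := by positivity
  have hAm : A ^ m = (τ / 4) ^ n := by
    rw [hA, ← Real.rpow_natCast, ← Real.rpow_mul (by positivity)]
    have : (n : ℝ) / m * m = n := by field_simp
    rw [this, Real.rpow_natCast]
  have hsub : {w : ℂ | (0 ≤ w.re ∧ w.re ≤ A) ∧ (τ / 4 ≤ w.im ∧ w.im ≤ τ / 2)} ⊆
      Metric.cthickening ε S := by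
    rintro w ⟨⟨h1, h2⟩, h3, h4⟩
    have hb : 0 < w.im := by linarith [show 0 < τ / 4 by positivity]
    obtain ⟨z, hz, hd⟩ := H w.re w.im h1 hb (by linarith) (by
      calc w.re ^ m ≤ A ^ m := pow_le_pow_left₀ h1 h2 m
        _ = (τ / 4) ^ n := hAm
        _ ≤ w.im ^ n := pow_le_pow_left₀ (by positivity) h3 n)
    apply Metric.mem_cthickening_of_dist_le w z ε S (hS hz)
    refine hd.trans ?_
    rw [← hτp]
    apply mul_le_mul_of_nonneg_left _ (by linarith)
    exact pow_le_pow_left₀ hb.le (by linarith) _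
  refine le_trans ?_ (measure_mono hsub)
  rw [volume_rect A τ hA0, ← ENNReal.ofReal_mul hA0]
  apply ENNReal.ofReal_le_ofReal
  apply le_of_eq
  have hτ4 : τ / 4 = ((1 / K) ^ e₀ / 4) * ε ^ e₀ := by
    rw [hτ, div_eq_mul_one_div ε K, Real.mul_rpow hε.le (by positivity)]
    ring
  have e1 : A * (τ / 4) = (τ / 4) ^ ((n : ℝ) / m + 1) := by
    rw [hA, Real.rpow_add (by positivity), Real.rpow_one]
  rw [e1, hτ4, Real.mul_rpow (by positivity) (by positivity), ← Real.rpow_mul hε.le]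
  congr 2
  rw [qq, he₀]
  field_simp
  ring

end Pool.Agent.Q166.DS
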