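import Pool.Agent.Q166.DS.Traj

/-!
# Odd roots, monotonicity of the cosine, covering of curves
-/

set_option autoImplicit false

namespace Pool.Agent.Q166.DS

open Set Filter Topology

/-- the odd root -/
noncomputable def rt (m : ℕ) (u : ℝ) : ℝ :=
  if 0 ≤ u then u ^ (1 / (m : ℝ)) else -((-u) ^ (1 / (m : ℝ)))

theorem rt_of_nonneg {m : ℕ} {u : ℝ} (hu : 0 ≤ u) : rt m u = u ^ (1 / (m : ℝ)) := by
  unfold rt
  rw [if_pos hu]

theorem rt_pow {m : ℕ} (hm : Odd m) (u : ℝ) : rt m u ^ m = u := by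
  have hm0 : m ≠ 0 := hm.pos.ne'
  unfold rt
  split_ifs with h
  · rw [one_div, Real.rpow_inv_natCast_pow h hm0]
  · push Not at h
    rw [hm.neg_pow, one_div, Real.rpow_inv_natCast_pow (by linarith) hm0, neg_neg]

theorem rt_unique {m : ℕ} (hm : Odd m) {x u : ℝ} (h : x ^ m = u) : x = rt m u :=
  hm.strictMono_pow.injective (h.trans (rt_pow hm u).symm)

theorem rt_mono {m : ℕ} (hm : Odd m) : Monotone (rt m) := by
  intro u v huv
  by_contra h
  push Not at h
  have := hm.strictMono_pow h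
  simp only at this
  rw [rt_pow hm, rt_pow hm] at this
  linarith

theorem rt_mul {m : ℕ} (hm : Odd m) (u v : ℝ) : rt m (u * v) = rt m u * rt m v := by
  symm
  apply rt_unique hm
  rw [mul_pow, rt_pow hm, rt_pow hm]

theorem rt_one {m : ℕ} (hm : Odd m) : rt m 1 = 1 := (rt_unique hm (one_pow m)).symm

theorem rt_neg_one {m : ℕ} (hm : Odd m) : rt m (-1) = -1 := (rt_unique hm hm.neg_one_pow).symm

theorem abs_rt_le {m : ℕ} (hm : Odd m) {u : ℝ} (h1 : -1 ≤ u) (h2 : u ≤ 1) : |rt m u| ≤ 1 := by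
  rw [abs_le]
  constructor
  · rw [← rt_neg_one hm]
    exact rt_mono hm h1
  · rw [← rt_one hm]
    exact rt_mono hm h2

theorem rt_nonneg {m : ℕ} {u : ℝ} (hu : 0 ≤ u) : 0 ≤ rt m u := by
  rw [rt_of_nonneg hu]
  positivity

theorem cos_half (l : ℤ) : MonotoneOn Real.cos (Icc (l * Real.pi) ((l + 1) * Real.pi)) ∨
    AntitoneOn Real.cos (Icc (l * Real.pi) ((l + 1) * Real.pi)) := by
  have key : ∀ u ∈ Icc ((l : ℝ) * Real.pi) ((l + 1) * Real.pi), ∀ v ∈ Icc ((l : ℝ) * Real.pi)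
      ((l + 1) * Real.pi), u ≤ v → (-1 : ℝ) ^ l * Real.cos v ≤ (-1 : ℝ) ^ l * Real.cos u := by
    intro u hu v hv huv
    rw [← Real.cos_sub_int_mul_pi, ← Real.cos_sub_int_mul_pi]
    apply Real.antitoneOn_cos
    · constructor
      · linarith [hu.1]
      · linarith [hu.2]
    · constructor
      · linarith [hv.1]
      · linarith [hv.2]
    · linarith
  rcases Int.even_or_odd l with h | h
  · right
    intro u hu v hv huv
    have := key u hu v hv huv
    rwa [h.neg_one_zpow, one_mul, one_mul] at this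
  · left
    intro u hu v hv huv
    have := key u hu v hv huv
    rw [h.neg_one_zpow] at this
    linarith

/-- a quarter turn -/
def quad (j : ℤ) : Set ℝ := Icc (j * (Real.pi / 2)) ((j + 1) * (Real.pi / 2))

theorem cos_quad (j : ℤ) : MonotoneOn Real.cos (quad j) ∨ AntitoneOn Real.cos (quad j) := by
  have hpi := Real.pi_pos
  have hsub : ∃ l : ℤ, quad j ⊆ Icc (l * Real.pi) ((l + 1) * Real.pi) := by
    obtain ⟨l, h | h⟩ := Int.even_or_odd' j
    · refine ⟨l, ?_⟩
      subst h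
      intro u hu
      obtain ⟨h1, h2⟩ := hu
      push_cast at h1 h2
      constructor <;> nlinarith
    · refine ⟨l, ?_⟩
      subst h
      intro u hu
      obtain ⟨h1, h2⟩ := hu
      push_cast at h1 h2
      constructor <;> nlinarith
  obtain ⟨l, hl⟩ := hsub
  rcases cos_half l with h | h
  · exact Or.inl (h.mono hl)
  · exact Or.inr (h.mono hl)

theorem sin_quad (j : ℤ) : MonotoneOn Real.sin (quad j) ∨ AntitoneOn Real.sin (quad j) := by
  have hpi := Real.pi_pos
  have hshift : ∀ u ∈ quad j, u - Real.pi / 2 ∈ quad (j - 1) := by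
    intro u hu
    obtain ⟨h1, h2⟩ := hu
    unfold quad
    constructor
    · push_cast
      linarith
    · push_cast
      linarith
  rcases cos_quad (j - 1) with h | h
  · left
    intro u hu v hv huv
    have := h (hshift u hu) (hshift v hv) (by linarith)
    rwa [Real.cos_sub_pi_div_two, Real.cos_sub_pi_div_two] at this
  · right
    intro u hu v hv huv
    have := h (hshift u hu) (hshift v hv) (by linarith)
    rwa [Real.cos_sub_pi_div_two, Real.cos_sub_pi_div_two] at this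

/-- a variation function for a product of a decreasing and a monotone function -/
theorem variation {Q : Set ℝ} {φ a : ℝ → ℝ} {A : ℝ} (hφ : MonotoneOn φ Q ∨ AntitoneOn φ Q)
    (h1 : ∀ θ ∈ Q, |φ θ| ≤ 1) (ha : AntitoneOn a Q) (h0 : ∀ θ ∈ Q, 0 ≤ a θ)
    (hA : ∀ θ ∈ Q, a θ ≤ A) :
    ∃ V : ℝ → ℝ, (∀ θ ∈ Q, |V θ| ≤ 2 * A) ∧
      ∀ u ∈ Q, ∀ v ∈ Q, u ≤ v → |a u * φ u - a v * φ v| ≤ V v - V u := by
  have key : ∀ u ∈ Q, ∀ v ∈ Q, u ≤ v → |a u * φ u - a v * φ v| ≤ a u - a v + A * |φ u - φ v| := by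
    intro u hu v hv huv
    have e : a u * φ u - a v * φ v = (a u - a v) * φ u + a v * (φ u - φ v) := by ring
    rw [e]
    have h2 := ha hu hv huv
    calc |(a u - a v) * φ u + a v * (φ u - φ v)|
        ≤ |(a u - a v) * φ u| + |a v * (φ u - φ v)| := abs_add_le _ _
      _ = (a u - a v) * |φ u| + a v * |φ u - φ v| := by
          rw [abs_mul, abs_mul, abs_of_nonneg (by linarith : 0 ≤ a u - a v), abs_of_nonneg (h0 v hv)]
      _ ≤ (a u - a v) * 1 + A * |φ u - φ v| :=
          add_le_add (mul_le_mul_of_nonneg_left (h1 u hu) (by linarith))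
            (mul_le_mul_of_nonneg_right (hA v hv) (abs_nonneg _))
      _ = _ := by ring
  have bnd : ∀ θ ∈ Q, ∀ s : ℝ, |s| ≤ 1 → |-(a θ) + A * (s * φ θ)| ≤ 2 * A := by
    intro θ hθ s hs
    have h2 := hA θ hθ
    have h3 := h0 θ hθ
    have h4 : |s * φ θ| ≤ 1 := by
      rw [abs_mul]
      exact mul_le_one₀ hs (abs_nonneg _) (h1 θ hθ)
    rw [abs_le] at h4 ⊢
    constructor <;> nlinarith
  rcases hφ with h | h
  · refine ⟨fun θ => -(a θ) + A * (1 * φ θ), fun θ hθ => bnd θ hθ 1 (by simp), ?_⟩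
    intro u hu v hv huv
    have h2 := key u hu v hv huv
    have h3 := h hu hv huv
    rw [abs_of_nonpos (by linarith : φ u - φ v ≤ 0)] at h2
    simp only
    linarith
  · refine ⟨fun θ => -(a θ) + A * (-1 * φ θ), fun θ hθ => bnd θ hθ (-1) (by simp), ?_⟩
    intro u hu v hv huv
    have h2 := key u hu v hv huv
    have h3 := h hu hv huv
    rw [abs_of_nonneg (by linarith : 0 ≤ φ u - φ v)] at h2
    simp only
    linarith

/-- a curve of bounded variation is covered by few balls -/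
theorem cover {Q : Set ℝ} {F : ℝ → ℂ} {V : ℝ → ℝ} {L ε : ℝ} (hε : 0 < ε) (hL : 0 ≤ L)
    (hV : ∀ θ ∈ Q, |V θ| ≤ L)
    (hF : ∀ u ∈ Q, ∀ v ∈ Q, u ≤ v → dist (F u) (F v) ≤ V v - V u) :
    ∃ T : Finset ℂ, (T.card : ℝ) ≤ 2 * L / ε + 1 ∧ ∀ θ ∈ Q, ∃ c ∈ T, dist (F θ) c ≤ ε := by
  classical
  set l : ℝ → ℕ := fun θ => ⌊(V θ + L) / ε⌋₊ with hl
  have hF' : ∀ u ∈ Q, ∀ v ∈ Q, dist (F u) (F v) ≤ |V u - V v| := by
    intro u hu v hv
    rcases le_total u v with h | h
    · refine (hF u hu v hv h).trans ?_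
      rw [abs_sub_comm]
      exact le_abs_self _
    · rw [dist_comm]
      exact (hF v hv u hu h).trans (le_abs_self _)
  set c : ℕ → ℂ := fun i => if h : ∃ θ ∈ Q, l θ = i then F h.choose else 0 with hc
  refine ⟨(Finset.range (⌊2 * L / ε⌋₊ + 1)).image c, ?_, ?_⟩
  · calc (((Finset.range (⌊2 * L / ε⌋₊ + 1)).image c).card : ℝ)
        ≤ ((Finset.range (⌊2 * L / ε⌋₊ + 1)).card : ℝ) := by exact_mod_cast Finset.card_image_le
      _ = (⌊2 * L / ε⌋₊ : ℝ) + 1 := by rw [Finset.card_range]; push_cast; ring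
      _ ≤ 2 * L / ε + 1 := by
          have := Nat.floor_le (show 0 ≤ 2 * L / ε by positivity)
          linarith
  · intro θ hθ
    have hex : ∃ θ' ∈ Q, l θ' = l θ := ⟨θ, hθ, rfl⟩
    have hVθ := abs_le.1 (hV θ hθ)
    refine ⟨c (l θ), Finset.mem_image_of_mem _ ?_, ?_⟩
    · rw [Finset.mem_range, Nat.lt_succ_iff]
      apply Nat.floor_le_floor
      apply div_le_div_of_nonneg_right _ hε.le
      linarith [hVθ.2]
    · have e : c (l θ) = F hex.choose := by
        simp only [hc]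
        rw [dif_pos hex]
      obtain ⟨h1, h2⟩ := hex.choose_spec
      rw [e]
      refine (hF' θ hθ _ h1).trans ?_
      have hV' := abs_le.1 (hV _ h1)
      have a1 := Nat.floor_le (show 0 ≤ (V θ + L) / ε by apply div_nonneg _ hε.le; linarith)
      have a2 := Nat.lt_floor_add_one ((V θ + L) / ε)
      have b1 := Nat.floor_le (show 0 ≤ (V hex.choose + L) / ε by
        apply div_nonneg _ hε.le; linarith)
      have b2 := Nat.lt_floor_add_one ((V hex.choose + L) / ε)
      change ⌊(V hex.choose + L) / ε⌋₊ = ⌊(V θ + L) / ε⌋₊ at h2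
      rw [h2] at b1 b2
      rw [le_div_iff₀ hε] at a1 b1
      rw [div_lt_iff₀ hε] at a2 b2
      rw [abs_le]
      constructor <;> nlinarith

theorem sum_rpow_le {α : ℝ} (h0 : 0 ≤ α) (h1 : α ≤ 1 / 2) (I : ℕ) :
    ∑ i ∈ Finset.range I, ((1 : ℝ) + i) ^ (-α) ≤ 2 * (I : ℝ) ^ (1 - α) := by
  have key : ∀ I : ℕ, ∑ i ∈ Finset.range I, ((1 : ℝ) + i) ^ (-(1 / 2) : ℝ) ≤ 2 * Real.sqrt I := by
    intro I
    induction I with
    | zero => simp
    | succ I ih =>
      rw [Finset.sum_range_succ]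
      have e : ((1 : ℝ) + I) ^ (-(1 / 2) : ℝ) = 1 / Real.sqrt (1 + I) := by
        rw [Real.rpow_neg (by positivity), ← Real.sqrt_eq_rpow, one_div]
      rw [e]
      have h2 : 0 < Real.sqrt (1 + (I : ℝ)) := Real.sqrt_pos.2 (by positivity)
      have h3 : Real.sqrt (1 + (I : ℝ)) ^ 2 = 1 + I := Real.sq_sqrt (by positivity)
      have h4 : Real.sqrt (I : ℝ) ^ 2 = I := Real.sq_sqrt (by positivity)
      have h5 : 0 ≤ Real.sqrt (I : ℝ) := Real.sqrt_nonneg _
      have h6 : 1 / Real.sqrt (1 + I) ≤ 2 * Real.sqrt (1 + I) - 2 * Real.sqrt I := by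
        rw [div_le_iff₀ h2]
        nlinarith [sq_nonneg (Real.sqrt (1 + (I : ℝ)) - Real.sqrt I)]
      push_cast
      rw [add_comm (I : ℝ) 1]
      linarith
  rcases Nat.eq_zero_or_pos I with rfl | hI
  · simp
    positivity
  have hI' : (0 : ℝ) < I := by exact_mod_cast hI
  calc ∑ i ∈ Finset.range I, ((1 : ℝ) + i) ^ (-α)
      ≤ ∑ i ∈ Finset.range I, ((1 : ℝ) + i) ^ (-(1 / 2) : ℝ) * (I : ℝ) ^ (1 / 2 - α) := by
        apply Finset.sum_le_sum
        intro i hi
        have hi' : (1 : ℝ) + i ≤ I := by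
          have := Finset.mem_range.1 hi
          have h : i + 1 ≤ I := this
          have : ((i + 1 : ℕ) : ℝ) ≤ I := by exact_mod_cast h
          push_cast at this
          linarith
        have e : -α = -(1 / 2) + (1 / 2 - α) := by ring
        rw [e, Real.rpow_add (by positivity)]
        apply mul_le_mul_of_nonneg_left _ (by positivity)
        apply Real.rpow_le_rpow (by positivity) hi' (by linarith)
    _ = (∑ i ∈ Finset.range I, ((1 : ℝ) + i) ^ (-(1 / 2) : ℝ)) * (I : ℝ) ^ (1 / 2 - α) := by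
        rw [Finset.sum_mul]
    _ ≤ 2 * Real.sqrt I * (I : ℝ) ^ (1 / 2 - α) :=
        mul_le_mul_of_nonneg_right (key I) (by positivity)
    _ = 2 * (I : ℝ) ^ (1 - α) := by
        rw [Real.sqrt_eq_rpow, mul_assoc, ← Real.rpow_add hI']
        congr 2
        ring

end Pool.Agent.Q166.DS
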