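import Mathlib

/-!
# Trajectories of the degenerate focus: explicit form

In the coordinates `(x ^ m, y ^ n)` the trajectories are power spirals.
-/

set_option autoImplicit false

namespace Pool.Agent.Q166.DS

open Set Filter Topology Complex

/-- the system with `σ = -1` at the time `t` -/
def Sys (m n k : ℕ) (x y : ℝ → ℝ) (t : ℝ) : Prop :=
  HasDerivAt x (-(n : ℝ) * y t ^ (2 * n - 1)
    - n * x t ^ m * y t ^ (n - 1) * (x t ^ (2 * m) + y t ^ (2 * n)) ^ k) t ∧
  HasDerivAt y ((m : ℝ) * x t ^ (2 * m - 1)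
    - m * x t ^ (m - 1) * y t ^ n * (x t ^ (2 * m) + y t ^ (2 * n)) ^ k) t

/-- the explicit curve, from the angle `θ₀` on -/
def Gam (m n k : ℕ) (C θ₀ : ℝ) : Set ℂ :=
  {z | ∃ θ R : ℝ, θ₀ ≤ θ ∧ 0 < R ∧ R ^ (2 * k) * (C + 2 * k * θ) = 1 ∧
    z.re ^ m = R * Real.cos θ ∧ z.im ^ n = R * Real.sin θ}

variable {m n k : ℕ} {x y : ℝ → ℝ} {a : ℝ}

theorem deriv_pow_x (_hm : 0 < m) (hn : 0 < n) {t : ℝ} (h : Sys m n k x y t) :
    HasDerivAt (fun t => x t ^ m) (m * n * (x t ^ (m - 1) * y t ^ (n - 1)) *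
      (-(y t ^ n) - (x t ^ (2 * m) + y t ^ (2 * n)) ^ k * x t ^ m)) t := by
  have h1 := h.1.pow m
  refine h1.congr_deriv ?_
  obtain ⟨n', rfl⟩ : ∃ n', n = n' + 1 := ⟨n - 1, by omega⟩
  have e1 : 2 * (n' + 1) - 1 = n' + (n' + 1) := by omega
  rw [e1, Nat.add_sub_cancel, pow_add]
  push_cast
  ring

theorem deriv_pow_y (hm : 0 < m) (_hn : 0 < n) {t : ℝ} (h : Sys m n k x y t) :
    HasDerivAt (fun t => y t ^ n) (m * n * (x t ^ (m - 1) * y t ^ (n - 1)) *
      (x t ^ m - (x t ^ (2 * m) + y t ^ (2 * n)) ^ k * y t ^ n)) t := by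
  have h1 := h.2.pow n
  refine h1.congr_deriv ?_
  obtain ⟨m', rfl⟩ : ∃ m', m = m' + 1 := ⟨m - 1, by omega⟩
  have e1 : 2 * (m' + 1) - 1 = m' + (m' + 1) := by omega
  rw [e1, Nat.add_sub_cancel, pow_add]
  push_cast
  ring

theorem deriv_rho (hm : 0 < m) (hn : 0 < n) {t : ℝ} (h : Sys m n k x y t) :
    HasDerivAt (fun t => x t ^ (2 * m) + y t ^ (2 * n)) (-2 * (m * n * (x t ^ (m - 1) * y t ^ (n - 1))) *
      (x t ^ (2 * m) + y t ^ (2 * n)) ^ (k + 1)) t := by
  have h1 := ((deriv_pow_x hm hn h).pow 2).add ((deriv_pow_y hm hn h).pow 2)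
  have e : (fun t => x t ^ (2 * m) + y t ^ (2 * n)) = (fun t => (x t ^ m) ^ 2) + fun t => (y t ^ n) ^ 2 := by
    funext s
    simp only [Pi.add_apply]
    rw [← pow_mul, ← pow_mul, mul_comm m 2, mul_comm n 2]
  rw [e]
  refine h1.congr_deriv ?_
  have e1 : x t ^ (2 * m) = (x t ^ m) ^ 2 := by rw [← pow_mul, mul_comm m 2]
  have e2 : y t ^ (2 * n) = (y t ^ n) ^ 2 := by rw [← pow_mul, mul_comm n 2]
  rw [e1, e2]
  push_cast
  ring

theorem const_of_deriv {E : Type*} [NormedAddCommGroup E] [NormedSpace ℝ E] {f : ℝ → E} {b : ℝ}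
    (h : ∀ t, b ≤ t → HasDerivAt f 0 t) {t : ℝ} (ht : b ≤ t) : f t = f b := by
  refine constant_of_has_deriv_right_zero (a := b) (b := t) ?_ ?_ t (right_mem_Icc.2 ht)
  · intro s hs
    exact (h s hs.1).continuousAt.continuousWithinAt
  · intro s hs
    exact (h s hs.1).hasDerivWithinAt

/-- **The trajectory is an explicit curve.** -/
theorem traj (hm : Odd m) (hn : Odd n) (hk : 1 ≤ k) {b : ℝ} (hab : a < b)
    (hs : ∀ t, a < t → Sys m n k x y t) (h0 : ∀ t, a < t → x t ^ (2 * m) + y t ^ (2 * n) ≠ 0)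
    (hlim : Tendsto (fun t => x t ^ (2 * m) + y t ^ (2 * n)) atTop (𝓝 0)) :
    ∃ (C : ℝ) (θ : ℝ → ℝ), 0 < C + 2 * k * θ b ∧ MonotoneOn θ (Ici b) ∧
      ∀ c, b ≤ c → {z : ℂ | ∃ t, c ≤ t ∧ z = x t + y t * I} = Gam m n k C (θ c) := by
  have hm0 : 0 < m := hm.pos
  have hn0 : 0 < n := hn.pos
  set ρ : ℝ → ℝ := fun t => x t ^ (2 * m) + y t ^ (2 * n) with hρ
  have hρ0 : ∀ t, 0 ≤ ρ t := by
    intro t
    simp only [hρ]
    rw [pow_mul, pow_mul]
    positivity
  have hρpos : ∀ t, a < t → 0 < ρ t := fun t ht => lt_of_le_of_ne (hρ0 t) (Ne.symm (h0 t ht))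
  -- the integrand
  set g : ℝ → ℝ := fun t => m * n * (x (max t b) ^ (m - 1) * y (max t b) ^ (n - 1)) with hg
  have hmax : ∀ t, a < max t b := fun t => lt_of_lt_of_le hab (le_max_right _ _)
  have hxc : Continuous fun t => x (max t b) := by
    rw [continuous_iff_continuousAt]
    intro t
    have h1 : ContinuousAt x (max t b) := (hs _ (hmax t)).1.continuousAt
    exact ContinuousAt.comp (f := fun t => max t b) h1 (by fun_prop)
  have hyc : Continuous fun t => y (max t b) := by
    rw [continuous_iff_continuousAt]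
    intro t
    have h1 : ContinuousAt y (max t b) := (hs _ (hmax t)).2.continuousAt
    exact ContinuousAt.comp (f := fun t => max t b) h1 (by fun_prop)
  have hgc : Continuous g := by
    simp only [hg]
    exact continuous_const.mul ((hxc.pow _).mul (hyc.pow _))
  have hg0 : ∀ t, 0 ≤ g t := by
    intro t
    simp only [hg]
    obtain ⟨m', rfl⟩ := hm
    obtain ⟨n', rfl⟩ := hn
    have e1 : 2 * m' + 1 - 1 = 2 * m' := by omega
    have e2 : 2 * n' + 1 - 1 = 2 * n' := by omega
    rw [e1, e2, pow_mul, pow_mul]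
    positivity
  have hgb : ∀ t, b ≤ t → g t = m * n * (x t ^ (m - 1) * y t ^ (n - 1)) := by
    intro t ht
    simp only [hg, max_eq_left ht]
  set G : ℝ → ℝ := fun t => ∫ u in b..t, g u with hG
  have hGd : ∀ t, HasDerivAt G (g t) t := fun t =>
    intervalIntegral.integral_hasDerivAt_right (hgc.intervalIntegrable _ _)
      hgc.stronglyMeasurable.stronglyMeasurableAtFilter hgc.continuousAt
  have hGb : G b = 0 := by simp [hG]
  have hGmono : Monotone G := monotone_of_hasDerivAt_nonneg hGd hg0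
  -- ρ^(-k)
  have hD : ∀ t, b ≤ t → (ρ t ^ k)⁻¹ - 2 * k * G t = (ρ b ^ k)⁻¹ := by
    intro t ht
    have h1 : ∀ s, b ≤ s → HasDerivAt (fun s => (ρ s ^ k)⁻¹ - 2 * k * G s) 0 s := by
      intro s hsb
      have hsa : a < s := lt_of_lt_of_le hab hsb
      have hp := hρpos s hsa
      have h2 := (((deriv_rho hm0 hn0 (hs s hsa)).pow k).inv (pow_ne_zero k hp.ne')).sub
        ((hGd s).const_mul (2 * (k : ℝ)))
      refine h2.congr_deriv ?_
      rw [hgb s hsb]
      change -((k : ℝ) * ρ s ^ (k - 1) * (-2 * (m * n * (x s ^ (m - 1) * y s ^ (n - 1))) *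
        ρ s ^ (k + 1))) / (ρ s ^ k) ^ 2 - 2 * k * (m * n * (x s ^ (m - 1) * y s ^ (n - 1))) = 0
      obtain ⟨k', rfl⟩ : ∃ k', k = k' + 1 := ⟨k - 1, by omega⟩
      rw [Nat.add_sub_cancel]
      have : ρ s ≠ 0 := hp.ne'
      field_simp
      ring
    have h3 := const_of_deriv h1 ht
    rw [h3, hGb]
    ring
  -- the angle
  set P : ℝ → ℂ := fun t => ((x t ^ m : ℝ) : ℂ) + ((y t ^ n : ℝ) : ℂ) * I with hP
  have hPd : ∀ t, b ≤ t → HasDerivAt P (((g t : ℝ) : ℂ) * (I - ((ρ t ^ k : ℝ) : ℂ)) * P t) t := by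
    intro t ht
    have hta : a < t := lt_of_lt_of_le hab ht
    have h1 := (deriv_pow_x hm0 hn0 (hs t hta)).ofReal_comp
    have h2 := (deriv_pow_y hm0 hn0 (hs t hta)).ofReal_comp
    have h3 := h1.add (h2.mul_const I)
    refine h3.congr_deriv ?_
    rw [hgb t ht]
    simp only [hP, hρ]
    push_cast
    linear_combination ((m : ℂ) * n * ((x t : ℂ) ^ (m - 1) * (y t : ℂ) ^ (n - 1)) *
      (y t : ℂ) ^ n) * (-I_mul_I)
  set R : ℝ → ℝ := fun t => Real.sqrt (ρ t) with hR
  have hRpos : ∀ t, a < t → 0 < R t := fun t ht => Real.sqrt_pos.2 (hρpos t ht)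
  have hRsq : ∀ t, R t ^ 2 = ρ t := fun t => Real.sq_sqrt (hρ0 t)
  have hRd : ∀ t, b ≤ t → HasDerivAt R (-(g t * ρ t ^ k * R t)) t := by
    intro t ht
    have hta : a < t := lt_of_lt_of_le hab ht
    have h1 := (deriv_rho hm0 hn0 (hs t hta)).sqrt (h0 t hta)
    refine h1.congr_deriv ?_
    rw [hgb t ht]
    change -2 * (m * n * (x t ^ (m - 1) * y t ^ (n - 1))) * ρ t ^ (k + 1) / (2 * R t) = _
    have h2 := (hRpos t hta).ne'
    rw [div_eq_iff (by positivity), pow_succ, ← hRsq t]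
    ring
  have hnorm : ∀ t, ‖P t‖ = R t := by
    intro t
    simp only [hP, hR, hρ]
    rw [Complex.norm_add_mul_I]
    congr 1
    rw [← pow_mul, ← pow_mul, mul_comm m 2, mul_comm n 2]
  set Q : ℝ → ℂ := fun t => P t * Complex.exp (-(((G t : ℝ) : ℂ) * I)) / ((R t : ℝ) : ℂ) with hQ
  have hQd : ∀ t, b ≤ t → HasDerivAt Q 0 t := by
    intro t ht
    have hta : a < t := lt_of_lt_of_le hab ht
    have h1 : HasDerivAt (fun t => Complex.exp (-(((G t : ℝ) : ℂ) * I)))
        (Complex.exp (-(((G t : ℝ) : ℂ) * I)) * (-(((g t : ℝ) : ℂ) * I))) t :=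
      (((hGd t).ofReal_comp.mul_const I).neg).cexp
    have h2 := ((hPd t ht).mul h1).div (hRd t ht).ofReal_comp
      (by exact_mod_cast (hRpos t hta).ne')
    refine h2.congr_deriv ?_
    have h3 : ((R t : ℝ) : ℂ) ≠ 0 := by exact_mod_cast (hRpos t hta).ne'
    rw [div_eq_zero_iff]
    left
    simp only [Pi.mul_apply]
    push_cast
    ring
  have hQc : ∀ t, b ≤ t → Q t = Q b := fun t ht => const_of_deriv hQd ht
  obtain ⟨φ, hφ⟩ : ∃ φ : ℝ, Q b = Complex.exp (φ * I) := by
    refine ⟨Complex.arg (Q b), ?_⟩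
    have h1 : ‖Q b‖ = 1 := by
      simp only [hQ]
      rw [norm_div, norm_mul, hnorm, hGb]
      simp only [ofReal_zero, zero_mul, neg_zero, Complex.exp_zero, norm_one, mul_one,
        Complex.norm_real, Real.norm_eq_abs, abs_of_pos (hRpos b hab)]
      exact div_self (hRpos b hab).ne'
    have h2 := Complex.norm_mul_exp_arg_mul_I (Q b)
    rw [h1] at h2
    simpa using h2.symm
  have hPe : ∀ t, b ≤ t → P t = ((R t : ℝ) : ℂ) * Complex.exp (((φ + G t : ℝ) : ℂ) * I) := by
    intro t ht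
    have hta : a < t := lt_of_lt_of_le hab ht
    have h1 := hQc t ht
    rw [hφ] at h1
    simp only [hQ] at h1
    have h3 : ((R t : ℝ) : ℂ) ≠ 0 := by exact_mod_cast (hRpos t hta).ne'
    rw [div_eq_iff h3] at h1
    have h4 : P t = (P t * Complex.exp (-(((G t : ℝ) : ℂ) * I))) * Complex.exp (((G t : ℝ) : ℂ) * I) := by
      rw [mul_assoc, ← Complex.exp_add]
      simp
    rw [h4, h1]
    rw [mul_comm (Complex.exp _) ((R t : ℝ) : ℂ), mul_assoc, ← Complex.exp_add]
    push_cast
    ring_nf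
  have hx : ∀ t, b ≤ t → x t ^ m = R t * Real.cos (φ + G t) ∧ y t ^ n = R t * Real.sin (φ + G t) := by
    intro t ht
    have h1 := hPe t ht
    rw [Complex.exp_mul_I, ← Complex.ofReal_cos, ← Complex.ofReal_sin] at h1
    simp only [hP] at h1
    constructor
    · have := congrArg Complex.re h1
      simp only [Complex.add_re, Complex.mul_re, Complex.ofReal_re, Complex.ofReal_im,
        Complex.I_re, Complex.I_im, Complex.add_im, Complex.mul_im] at this
      linarith
    · have := congrArg Complex.im h1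
      simp only [Complex.add_re, Complex.mul_re, Complex.ofReal_re, Complex.ofReal_im,
        Complex.I_re, Complex.I_im, Complex.add_im, Complex.mul_im] at this
      linarith
  have hrel : ∀ t, b ≤ t → R t ^ (2 * k) * (((ρ b ^ k)⁻¹ - 2 * k * φ) + 2 * k * (φ + G t)) = 1 := by
    intro t ht
    have hta : a < t := lt_of_lt_of_le hab ht
    have h1 := hD t ht
    have h2 : ((ρ b ^ k)⁻¹ - 2 * k * φ) + 2 * k * (φ + G t) = (ρ t ^ k)⁻¹ := by linarith
    rw [h2, pow_mul, hRsq]
    exact mul_inv_cancel₀ (pow_ne_zero _ (hρpos t hta).ne')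
  refine ⟨(ρ b ^ k)⁻¹ - 2 * k * φ, fun t => φ + G t, ?_, ?_, ?_⟩
  · simp only [hGb]
    have : 0 < (ρ b ^ k)⁻¹ := inv_pos.2 (pow_pos (hρpos b hab) _)
    linarith
  · intro s _ t _ hst
    have := hGmono hst
    simp only
    linarith
  · intro c hbc
    ext z
    constructor
    · rintro ⟨t, hct, rfl⟩
      have hbt := hbc.trans hct
      have hta : a < t := lt_of_lt_of_le hab hbt
      refine ⟨φ + G t, R t, ?_, hRpos t hta, hrel t hbt, ?_, ?_⟩
      · have := hGmono hct
        linarith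
      · simpa using (hx t hbt).1
      · simpa using (hx t hbt).2
    · rintro ⟨θ, r, hθ, hr, hrel', h1, h2⟩
      -- find the time
      have htop : Tendsto G atTop atTop := by
        have e1 : Tendsto (fun t => (ρ t ^ k)⁻¹) atTop atTop := by
          have e2 : Tendsto (fun t => ρ t ^ k) atTop (𝓝[>] 0) := by
            rw [tendsto_nhdsWithin_iff]
            constructor
            · have := hlim.pow k
              rwa [zero_pow (by omega)] at this
            · filter_upwards [eventually_gt_atTop a] with t ht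
              exact pow_pos (hρpos t ht) _
          exact tendsto_inv_nhdsGT_zero.comp e2
        have e3 : Tendsto (fun t => ((ρ t ^ k)⁻¹ - (ρ b ^ k)⁻¹) / (2 * k)) atTop atTop := by
          apply Tendsto.atTop_div_const
          · have : (1 : ℝ) ≤ k := by exact_mod_cast hk
            positivity
          · exact tendsto_atTop_add_const_right _ _ e1
        refine e3.congr' ?_
        filter_upwards [eventually_ge_atTop b] with t ht
        have h3 := hD t ht
        have hk0 : (0 : ℝ) < k := by exact_mod_cast hk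
        rw [div_eq_iff (by positivity)]
        linarith
      obtain ⟨t₁, ht₁, hct₁⟩ := ((htop.eventually_ge_atTop (θ - φ)).and
        (eventually_ge_atTop c)).exists
      have hGcont : Continuous G := by
        rw [continuous_iff_continuousAt]
        exact fun t => (hGd t).continuousAt
      obtain ⟨t, ht, hGt⟩ := intermediate_value_Icc hct₁ hGcont.continuousOn
        (show θ - φ ∈ Icc (G c) (G t₁) from ⟨by linarith, ht₁⟩)
      have hbt : b ≤ t := hbc.trans ht.1
      have hta : a < t := lt_of_lt_of_le hab hbt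
      refine ⟨t, ht.1, ?_⟩
      have hθt : θ = φ + G t := by linarith
      have hrR : r = R t := by
        have h3 := hrel t hbt
        rw [hθt] at hrel'
        have h5 : (((ρ b ^ k)⁻¹ - 2 * k * φ) + 2 * k * (φ + G t)) ≠ 0 := by
          intro h
          rw [h, mul_zero] at h3
          exact zero_ne_one h3
        have h4 : r ^ (2 * k) = R t ^ (2 * k) := mul_right_cancel₀ h5 (hrel'.trans h3.symm)
        exact (pow_left_inj₀ hr.le (hRpos t hta).le (by omega)).1 h4
      obtain ⟨h3, h4⟩ := hx t hbt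
      rw [hrR, hθt, ← h3] at h1
      rw [hrR, hθt, ← h4] at h2
      apply Complex.ext
      · have := hm.strictMono_pow.injective h1
        simpa using this
      · have := hn.strictMono_pow.injective h2
        simpa using this

end Pool.Agent.Q166.DS
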