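import Pool.Agent.Q166.DS.Rt

/-!
# The upper bound for the area
-/

set_option autoImplicit false

namespace Pool.Agent.Q166.DS

open Set Filter Topology MeasureTheory

theorem volume_box (a b : ℝ) (_ha : 0 ≤ a) (_hb : 0 ≤ b) :
    volume {w : ℂ | |w.re| ≤ a ∧ |w.im| ≤ b} = ENNReal.ofReal (2 * a) * ENNReal.ofReal (2 * b) := by
  have h := Complex.volume_preserving_equiv_real_prod
  have e : {w : ℂ | |w.re| ≤ a ∧ |w.im| ≤ b} =
      Complex.measurableEquivRealProd ⁻¹' (Icc (-a) a ×ˢ Icc (-b) b) := by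
    ext w
    simp only [mem_ofPred_eq, mem_preimage, mem_prod, mem_Icc, Complex.measurableEquivRealProd_apply,
      abs_le]
  rw [e, h.measure_preimage (measurableSet_Icc.prod measurableSet_Icc).nullMeasurableSet]
  rw [Measure.volume_eq_prod, Measure.prod_prod, Real.volume_Icc, Real.volume_Icc]
  congr 2 <;> ring_nf

/-- the radius as a function of `u = C + 2 k θ` -/
noncomputable def Rf (k : ℕ) (u : ℝ) : ℝ := u ^ (-(1 / (2 * (k : ℝ))))

theorem Rf_pos {k : ℕ} {u : ℝ} (hu : 0 < u) : 0 < Rf k u := Real.rpow_pos_of_pos hu _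

theorem Rf_pow {k : ℕ} (hk : 1 ≤ k) {u : ℝ} (hu : 0 < u) : Rf k u ^ (2 * k) = u⁻¹ := by
  unfold Rf
  rw [← Real.rpow_natCast, ← Real.rpow_mul hu.le]
  have hk0 : (k : ℝ) ≠ 0 := by
    have : (0 : ℝ) < k := by exact_mod_cast hk
    exact this.ne'
  have : -(1 / (2 * (k : ℝ))) * ((2 * k : ℕ) : ℝ) = -1 := by
    push_cast
    field_simp
  rw [this, Real.rpow_neg_one]

theorem Rf_eq {k : ℕ} (hk : 1 ≤ k) {R u : ℝ} (hR : 0 < R) (h : R ^ (2 * k) * u = 1) :
    0 < u ∧ R = Rf k u := by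
  have hu : 0 < u := by
    by_contra hu
    push Not at hu
    have h1 : 0 < R ^ (2 * k) := by positivity
    nlinarith
  refine ⟨hu, ?_⟩
  have h1 : R ^ (2 * k) = Rf k u ^ (2 * k) := by
    rw [Rf_pow hk hu]
    exact eq_inv_of_mul_eq_one_left h
  exact (pow_left_inj₀ hR.le (Rf_pos hu).le (by omega)).1 h1

theorem Rf_anti {k : ℕ} {u v : ℝ} (hu : 0 < u) (huv : u ≤ v) : Rf k v ≤ Rf k u := by
  unfold Rf
  apply Real.rpow_le_rpow_of_nonpos hu huv
  have : (0 : ℝ) ≤ 1 / (2 * (k : ℝ)) := by positivity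
  linarith

theorem rt_Rf {m k : ℕ} {w : ℝ} (hw : 0 < w) :
    rt m (Rf k w) = w ^ (-(1 / (2 * (k : ℝ)) * (1 / (m : ℝ)))) := by
  rw [rt_of_nonneg (Rf_pos hw).le]
  unfold Rf
  rw [← Real.rpow_mul hw.le]
  congr 1
  ring

variable {m n k : ℕ} {C θ₀ : ℝ}

/-- the parametrised curve -/
noncomputable def F (m n k : ℕ) (C θ : ℝ) : ℂ :=
  ⟨rt m (Rf k (C + 2 * k * θ)) * rt m (Real.cos θ), rt n (Rf k (C + 2 * k * θ)) * rt n (Real.sin θ)⟩

theorem gam_param (hm : Odd m) (hn : Odd n) (hk : 1 ≤ k) {z : ℂ} (hz : z ∈ Gam m n k C θ₀) :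
    ∃ θ, θ₀ ≤ θ ∧ z = F m n k C θ := by
  obtain ⟨θ, R, h1, hR, h2, h3, h4⟩ := hz
  obtain ⟨hu, rfl⟩ := Rf_eq hk hR h2
  refine ⟨θ, h1, ?_⟩
  apply Complex.ext
  · simp only [F]
    rw [← rt_mul hm]
    exact rt_unique hm h3
  · simp only [F]
    rw [← rt_mul hn]
    exact rt_unique hn h4

/-- the covering of one quarter turn -/
theorem piece (hm : Odd m) (hn : Odd n) (hC : 0 < C + 2 * k * θ₀) (j : ℤ) {w ε : ℝ} (hw : 0 < w)
    (hwu : ∀ θ, θ₀ ≤ θ → θ ∈ quad j → w ≤ C + 2 * k * θ) (hε : 0 < ε) :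
    ∃ T : Finset ℂ, (T.card : ℝ) ≤ 2 * (2 * rt m (Rf k w) + 2 * rt n (Rf k w)) / ε + 1 ∧
      ∀ θ, θ₀ ≤ θ → θ ∈ quad j → ∃ c ∈ T, dist (F m n k C θ) c ≤ ε := by
  set Q : Set ℝ := {θ | θ₀ ≤ θ ∧ θ ∈ quad j} with hQ
  have hupos : ∀ θ ∈ Q, 0 < C + 2 * k * θ := by
    intro θ hθ
    have h1 : (0 : ℝ) ≤ 2 * k := by positivity
    have := mul_le_mul_of_nonneg_left hθ.1 h1
    linarith
  have hanti : ∀ {l : ℕ}, Odd l → AntitoneOn (fun θ => rt l (Rf k (C + 2 * k * θ))) Q := by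
    intro l hl u hu v hv huv
    apply rt_mono hl
    apply Rf_anti (hupos u hu)
    have h1 : (0 : ℝ) ≤ 2 * k := by positivity
    have := mul_le_mul_of_nonneg_left huv h1
    linarith
  have hnn : ∀ {l : ℕ}, ∀ θ ∈ Q, 0 ≤ rt l (Rf k (C + 2 * k * θ)) := fun θ hθ =>
    rt_nonneg (Rf_pos (hupos θ hθ)).le
  have hle : ∀ {l : ℕ}, Odd l → ∀ θ ∈ Q, rt l (Rf k (C + 2 * k * θ)) ≤ rt l (Rf k w) := by
    intro l hl θ hθ
    exact rt_mono hl (Rf_anti hw (hwu θ hθ.1 hθ.2))
  have hQs : Q ⊆ quad j := fun θ hθ => hθ.2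
  have hcos : MonotoneOn (fun θ => rt m (Real.cos θ)) Q ∨ AntitoneOn (fun θ => rt m (Real.cos θ)) Q := by
    rcases cos_quad j with h | h
    · exact Or.inl fun u hu v hv huv => rt_mono hm (h (hQs hu) (hQs hv) huv)
    · exact Or.inr fun u hu v hv huv => rt_mono hm (h (hQs hu) (hQs hv) huv)
  have hsin : MonotoneOn (fun θ => rt n (Real.sin θ)) Q ∨ AntitoneOn (fun θ => rt n (Real.sin θ)) Q := by
    rcases sin_quad j with h | h
    · exact Or.inl fun u hu v hv huv => rt_mono hn (h (hQs hu) (hQs hv) huv)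
    · exact Or.inr fun u hu v hv huv => rt_mono hn (h (hQs hu) (hQs hv) huv)
  obtain ⟨V₁, a1, a2⟩ := variation hcos
    (fun θ _ => abs_rt_le hm (Real.neg_one_le_cos θ) (Real.cos_le_one θ)) (hanti hm)
    (fun θ hθ => hnn θ hθ) (hle hm)
  obtain ⟨V₂, b1, b2⟩ := variation hsin
    (fun θ _ => abs_rt_le hn (Real.neg_one_le_sin θ) (Real.sin_le_one θ)) (hanti hn)
    (fun θ hθ => hnn θ hθ) (hle hn)
  have hA : 0 ≤ rt m (Rf k w) := rt_nonneg (Rf_pos hw).le
  have hB : 0 ≤ rt n (Rf k w) := rt_nonneg (Rf_pos hw).le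
  obtain ⟨T, hT, hT'⟩ := cover (Q := Q) (F := F m n k C) (V := fun θ => V₁ θ + V₂ θ)
    (L := 2 * rt m (Rf k w) + 2 * rt n (Rf k w)) hε (by positivity)
    (fun θ hθ => (abs_add_le _ _).trans (add_le_add (a1 θ hθ) (b1 θ hθ)))
    (fun u hu v hv huv => by
      rw [Complex.dist_eq]
      refine (Complex.norm_le_abs_re_add_abs_im _).trans ?_
      have h1 := a2 u hu v hv huv
      have h2 := b2 u hu v hv huv
      simp only [F, Complex.sub_re, Complex.sub_im]
      linarith)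
  exact ⟨T, hT, fun θ h1 h2 => hT' θ ⟨h1, h2⟩⟩

/-- the geometric upper bound -/
theorem area_le (hm : Odd m) (hn : Odd n) (hk : 1 ≤ k) (hC : 0 < C + 2 * k * θ₀) :
    ∃ c₁ : ℝ, 0 < c₁ ∧ ∀ ε : ℝ, 0 < ε → ∀ (I : ℕ) (S : Set ℂ), S ⊆ Gam m n k C θ₀ →
      volume (Metric.cthickening ε S) ≤ ENNReal.ofReal
        ((∑ i ∈ Finset.range I, (2 * (2 * rt m (Rf k (c₁ * (1 + i))) +
          2 * rt n (Rf k (c₁ * (1 + i)))) / ε + 1)) * (9 * Real.pi * ε ^ 2) +
        4 * (rt m (Rf k (c₁ * (1 + I))) + 2 * ε) * (rt n (Rf k (c₁ * (1 + I))) + 2 * ε)) := by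
  have hpi : 3 < Real.pi := Real.pi_gt_three
  have hk' : (1 : ℝ) ≤ k := by exact_mod_cast hk
  set u₀ : ℝ := C + 2 * k * θ₀ with hu₀
  set c₁ : ℝ := min (u₀ / 2) 1 with hc₁
  have hc₁0 : 0 < c₁ := lt_min (by linarith) one_pos
  have hc₁a : c₁ ≤ u₀ / 2 := min_le_left _ _
  have hc₁b : c₁ ≤ 1 := min_le_right _ _
  set j₀ : ℤ := ⌊θ₀ / (Real.pi / 2)⌋ with hj₀
  have hj1 : θ₀ < (j₀ + 1) * (Real.pi / 2) := by
    have := Int.lt_floor_add_one (θ₀ / (Real.pi / 2))
    rwa [div_lt_iff₀ (by positivity)] at this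
  -- lower bound for `u`
  have hu : ∀ (i : ℕ) (θ : ℝ), θ₀ ≤ θ → (j₀ + i : ℝ) * (Real.pi / 2) ≤ θ →
      c₁ * (1 + i) ≤ C + 2 * k * θ := by
    intro i θ h1 h2
    have h3 : u₀ + 2 * k * (θ - θ₀) = C + 2 * k * θ := by rw [hu₀]; ring
    rw [← h3]
    rcases Nat.eq_zero_or_pos i with rfl | hi
    · have : 0 ≤ 2 * (k : ℝ) * (θ - θ₀) := mul_nonneg (by positivity) (by linarith)
      push_cast
      linarith
    · have hi' : (1 : ℝ) ≤ i := by exact_mod_cast hi
      have h4 : ((i : ℝ) - 1) * (Real.pi / 2) ≤ θ - θ₀ := by nlinarith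
      have h5 : ((i : ℝ) - 1) ≤ 2 * k * (θ - θ₀) := by
        have h6 : ((i : ℝ) - 1) * (3 / 2) ≤ θ - θ₀ := by nlinarith
        nlinarith
      nlinarith
  refine ⟨c₁, hc₁0, ?_⟩
  intro ε hε I S hS
  have hcov : ∀ i : ℕ, ∃ T : Finset ℂ, (T.card : ℝ) ≤ 2 * (2 * rt m (Rf k (c₁ * (1 + i))) +
      2 * rt n (Rf k (c₁ * (1 + i)))) / ε + 1 ∧
      ∀ θ, θ₀ ≤ θ → θ ∈ quad (j₀ + i) → ∃ c ∈ T, dist (F m n k C θ) c ≤ ε := by
    intro i
    refine piece hm hn hC (j₀ + i) (by positivity) ?_ hε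
    intro θ h1 h2
    apply hu i θ h1
    have := h2.1
    push_cast at this
    exact this
  choose T hT1 hT2 using hcov
  set A : ℝ := rt m (Rf k (c₁ * (1 + I))) + 2 * ε with hA
  set B : ℝ := rt n (Rf k (c₁ * (1 + I))) + 2 * ε with hB
  have hA0 : 0 ≤ A := by
    have := rt_nonneg (m := m) (Rf_pos (k := k) (show 0 < c₁ * (1 + I) by positivity)).le
    positivity
  have hB0 : 0 ≤ B := by
    have := rt_nonneg (m := n) (Rf_pos (k := k) (show 0 < c₁ * (1 + I) by positivity)).le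
    positivity
  have hsub : Metric.cthickening ε S ⊆ (⋃ i ∈ Finset.range I, ⋃ c ∈ T i, Metric.closedBall c (3 * ε)) ∪
      {w : ℂ | |w.re| ≤ A ∧ |w.im| ≤ B} := by
    intro w hw
    have h1 := Metric.cthickening_subset_thickening' (show 0 < 2 * ε by positivity)
      (show ε < 2 * ε by linarith) S hw
    obtain ⟨z, hz, hwz⟩ := Metric.mem_thickening_iff.1 h1
    obtain ⟨θ, hθ, rfl⟩ := gam_param hm hn hk (hS hz)
    set j : ℤ := ⌊θ / (Real.pi / 2)⌋ with hj
    have hjle : j₀ ≤ j := Int.floor_le_floor (div_le_div_of_nonneg_right hθ (by positivity))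
    obtain ⟨i, hi⟩ : ∃ i : ℕ, j = j₀ + i := ⟨(j - j₀).toNat, by omega⟩
    have hθq : θ ∈ quad (j₀ + i) := by
      rw [← hi]
      have g1 := Int.floor_le (θ / (Real.pi / 2))
      have g2 := Int.lt_floor_add_one (θ / (Real.pi / 2))
      rw [le_div_iff₀ (by positivity)] at g1
      rw [div_lt_iff₀ (by positivity)] at g2
      exact ⟨g1, g2.le⟩
    by_cases hiI : i < I
    · left
      obtain ⟨c, hc, hd⟩ := hT2 i θ hθ hθq
      simp only [mem_iUnion]
      refine ⟨i, Finset.mem_range.2 hiI, c, hc, ?_⟩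
      rw [Metric.mem_closedBall]
      have := dist_triangle w (F m n k C θ) c
      linarith
    · right
      push Not at hiI
      have hθ2 := hθq.1
      push_cast at hθ2
      have hub : c₁ * (1 + I) ≤ C + 2 * k * θ := by
        refine le_trans ?_ (hu i θ hθ hθ2)
        have : (I : ℝ) ≤ i := by exact_mod_cast hiI
        nlinarith
      have hpos : 0 < c₁ * (1 + (I : ℝ)) := by positivity
      have hRle := Rf_anti (k := k) hpos hub
      have hz1 : |(F m n k C θ).re| ≤ rt m (Rf k (c₁ * (1 + I))) := by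
        simp only [F]
        rw [abs_mul, abs_of_nonneg (rt_nonneg (Rf_pos (hpos.trans_le hub)).le)]
        calc rt m (Rf k (C + 2 * k * θ)) * |rt m (Real.cos θ)|
            ≤ rt m (Rf k (C + 2 * k * θ)) * 1 :=
              mul_le_mul_of_nonneg_left (abs_rt_le hm (Real.neg_one_le_cos θ) (Real.cos_le_one θ))
                (rt_nonneg (Rf_pos (hpos.trans_le hub)).le)
          _ ≤ _ := by rw [mul_one]; exact rt_mono hm hRle
      have hz2 : |(F m n k C θ).im| ≤ rt n (Rf k (c₁ * (1 + I))) := by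
        simp only [F]
        rw [abs_mul, abs_of_nonneg (rt_nonneg (Rf_pos (hpos.trans_le hub)).le)]
        calc rt n (Rf k (C + 2 * k * θ)) * |rt n (Real.sin θ)|
            ≤ rt n (Rf k (C + 2 * k * θ)) * 1 :=
              mul_le_mul_of_nonneg_left (abs_rt_le hn (Real.neg_one_le_sin θ) (Real.sin_le_one θ))
                (rt_nonneg (Rf_pos (hpos.trans_le hub)).le)
          _ ≤ _ := by rw [mul_one]; exact rt_mono hn hRle
      rw [Complex.dist_eq] at hwz
      constructor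
      · have h3 := (Complex.abs_re_le_norm (w - F m n k C θ)).trans hwz.le
        rw [Complex.sub_re] at h3
        have h4 := abs_sub_abs_le_abs_sub w.re (F m n k C θ).re
        linarith
      · have h3 := (Complex.abs_im_le_norm (w - F m n k C θ)).trans hwz.le
        rw [Complex.sub_im] at h3
        have h4 := abs_sub_abs_le_abs_sub w.im (F m n k C θ).im
        linarith
  have hball : ∀ c : ℂ, volume (Metric.closedBall c (3 * ε)) = ENNReal.ofReal (9 * Real.pi * ε ^ 2) := by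
    intro c
    rw [Complex.volume_closedBall, ← ENNReal.ofReal_pow (by positivity),
      show (NNReal.pi : ENNReal) = ENNReal.ofReal Real.pi from by
        rw [ENNReal.ofReal]
        congr 1
        ext
        simp [Real.pi_pos.le],
      ← ENNReal.ofReal_mul (by positivity)]
    congr 1
    ring
  have hvol : volume (Metric.cthickening ε S) ≤ ENNReal.ofReal
      ((∑ i ∈ Finset.range I, (2 * (2 * rt m (Rf k (c₁ * (1 + i))) +
          2 * rt n (Rf k (c₁ * (1 + i)))) / ε + 1)) * (9 * Real.pi * ε ^ 2) + 4 * A * B) := by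
    refine (measure_mono hsub).trans ((measure_union_le _ _).trans ?_)
    rw [ENNReal.ofReal_add (by
      apply mul_nonneg _ (by positivity)
      apply Finset.sum_nonneg
      intro i _
      exact (Nat.cast_nonneg _).trans (hT1 i)) (by positivity)]
    apply add_le_add
    · refine (measure_biUnion_finset_le _ _).trans ?_
      rw [Finset.sum_mul, ENNReal.ofReal_sum_of_nonneg (by
        intro i _
        apply mul_nonneg _ (by positivity)
        exact (Nat.cast_nonneg _).trans (hT1 i))]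
      apply Finset.sum_le_sum
      intro i _
      refine (measure_biUnion_finset_le _ _).trans ?_
      simp only [hball, Finset.sum_const, nsmul_eq_mul]
      rw [← ENNReal.ofReal_natCast, ← ENNReal.ofReal_mul (by positivity)]
      apply ENNReal.ofReal_le_ofReal
      exact mul_le_mul_of_nonneg_right (hT1 i) (by positivity)
    · rw [volume_box A B hA0 hB0, ← ENNReal.ofReal_mul (by positivity)]
      apply ENNReal.ofReal_le_ofReal
      linarith
  exact hvol

end Pool.Agent.Q166.DS
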