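import Pool.Agent.Q166.DS.Up

/-!
# The upper bound, final form
-/

set_option autoImplicit false

namespace Pool.Agent.Q166.DS

open Set Filter Topology MeasureTheory

variable {m n k : ℕ} {C θ₀ : ℝ}

/-- the exponent -/
noncomputable def qq (m n k : ℕ) : ℝ := (1 + n / m) / (1 + 2 * k * n)

theorem upper_final (hm : Odd m) (hn : Odd n) (hk : 1 ≤ k) (hnm : n ≤ m)
    (hC : 0 < C + 2 * k * θ₀) :
    ∃ K : ℝ, 0 < K ∧ ∀ ε : ℝ, 0 < ε → ε ≤ 1 → ∀ S : Set ℂ, S ⊆ Gam m n k C θ₀ →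
      volume (Metric.cthickening ε S) ≤ ENNReal.ofReal (K * ε ^ qq m n k) := by
  obtain ⟨c₁, hc₁, H⟩ := area_le hm hn hk hC
  have hm0 : (1 : ℝ) ≤ m := by exact_mod_cast hm.pos
  have hn0 : (1 : ℝ) ≤ n := by exact_mod_cast hn.pos
  have hk0 : (1 : ℝ) ≤ k := by exact_mod_cast hk
  have hnm' : (n : ℝ) ≤ m := by exact_mod_cast hnm
  set α : ℝ := 1 / (2 * (k : ℝ)) * (1 / (m : ℝ)) with hα
  set β : ℝ := 1 / (2 * (k : ℝ)) * (1 / (n : ℝ)) with hβ
  set e₀ : ℝ := 1 / (1 + 2 * k * n) with he₀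
  set κ : ℝ := 2 * k * n * e₀ with hκ
  set s : ℝ := n / m with hs
  have hD : 0 < 1 + 2 * (k : ℝ) * n := by positivity
  have hα0 : 0 ≤ α := by positivity
  have hα1 : α ≤ 1 / 2 := by
    have g1 : 1 / (2 * (k : ℝ)) ≤ 1 / 2 := one_div_le_one_div_of_le (by norm_num) (by linarith)
    have g2 : 1 / (m : ℝ) ≤ 1 := by
      rw [div_le_one (by linarith)]
      exact hm0
    have g3 : 0 ≤ 1 / (m : ℝ) := by positivity
    have g4 : 0 ≤ 1 / (2 * (k : ℝ)) := by positivity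
    rw [hα]
    nlinarith
  have hαβ : α ≤ β := by
    rw [hα, hβ]
    apply mul_le_mul_of_nonneg_left _ (by positivity)
    exact one_div_le_one_div_of_le (by linarith) hnm'
  have he0 : 0 < e₀ := by positivity
  have hs0 : 0 < s := by positivity
  have hs1 : s ≤ 1 := by
    rw [hs, div_le_one (by linarith)]
    exact hnm'
  have he1 : e₀ ≤ 1 := by
    rw [he₀, div_le_one hD]
    have : 0 ≤ 2 * (k : ℝ) * n := by positivity
    linarith
  have hq : qq m n k = e₀ * (1 + s) := by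
    rw [qq, he₀, hs]
    ring
  have h1κ : 1 - κ = e₀ := by
    rw [hκ, he₀]
    field_simp
    ring
  have hκα : κ * α = s * e₀ := by
    rw [hκ, hα, hs]
    field_simp
  have hκβ : κ * β = e₀ := by
    rw [hκ, hβ]
    field_simp
  have hκ0 : 0 ≤ κ := by positivity
  set C₂ : ℝ := c₁ ^ (-α) + c₁ ^ (-β) with hC₂
  have hC₂0 : 0 < C₂ := by positivity
  refine ⟨144 * Real.pi * C₂ + 18 * Real.pi + 4 * (c₁ ^ (-α) + 2) * (c₁ ^ (-β) + 2), by positivity, ?_⟩
  intro ε hε hε1 S hS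
  set I : ℕ := ⌊ε ^ (-κ)⌋₊ + 1 with hI
  refine (H ε hε I S hS).trans (ENNReal.ofReal_le_ofReal ?_)
  have hΛ1 : 1 ≤ ε ^ (-κ) := Real.one_le_rpow_of_pos_of_le_one_of_nonpos hε hε1 (by linarith)
  have hI1 : ε ^ (-κ) ≤ I := by
    have := Nat.lt_floor_add_one (ε ^ (-κ))
    rw [hI]
    push_cast
    exact this.le
  have hI2 : (I : ℝ) ≤ 2 * ε ^ (-κ) := by
    have := Nat.floor_le (show 0 ≤ ε ^ (-κ) by positivity)
    rw [hI]
    push_cast
    linarith
  have hI0 : (0 : ℝ) < I := by linarith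
  have hAB : ∀ i : ℕ, rt m (Rf k (c₁ * (1 + i))) + rt n (Rf k (c₁ * (1 + i))) ≤
      C₂ * (1 + i : ℝ) ^ (-α) := by
    intro i
    rw [rt_Rf (by positivity), rt_Rf (by positivity), Real.mul_rpow hc₁.le (by positivity),
      Real.mul_rpow hc₁.le (by positivity), hC₂, add_mul]
    apply add_le_add le_rfl
    apply mul_le_mul_of_nonneg_left _ (by positivity)
    apply Real.rpow_le_rpow_of_exponent_le
    · have : (0 : ℝ) ≤ i := Nat.cast_nonneg _
      linarith
    · linarith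
  have hsum : (∑ i ∈ Finset.range I, (2 * (2 * rt m (Rf k (c₁ * (1 + i))) +
          2 * rt n (Rf k (c₁ * (1 + i)))) / ε + 1)) ≤ 8 * C₂ / ε * (I : ℝ) ^ (1 - α) + I := by
    calc (∑ i ∈ Finset.range I, (2 * (2 * rt m (Rf k (c₁ * (1 + i))) +
          2 * rt n (Rf k (c₁ * (1 + i)))) / ε + 1))
        ≤ ∑ i ∈ Finset.range I, (4 * C₂ / ε * (1 + i : ℝ) ^ (-α) + 1) := by
          apply Finset.sum_le_sum
          intro i _
          apply add_le_add _ le_rfl
          rw [div_mul_eq_mul_div]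
          apply div_le_div_of_nonneg_right _ hε.le
          have := hAB i
          linarith
      _ = 4 * C₂ / ε * ∑ i ∈ Finset.range I, (1 + i : ℝ) ^ (-α) + I := by
          rw [Finset.sum_add_distrib, Finset.mul_sum]
          simp
      _ ≤ 4 * C₂ / ε * (2 * (I : ℝ) ^ (1 - α)) + I :=
          add_le_add (mul_le_mul_of_nonneg_left (sum_rpow_le hα0 hα1 I) (by positivity)) le_rfl
      _ = _ := by ring
  have hIp : (I : ℝ) ^ (1 - α) ≤ 2 * ε ^ (-κ * (1 - α)) := by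
    calc (I : ℝ) ^ (1 - α) ≤ (2 * ε ^ (-κ)) ^ (1 - α) :=
          Real.rpow_le_rpow hI0.le hI2 (by linarith)
      _ = 2 ^ (1 - α) * ε ^ (-κ * (1 - α)) := by
          rw [Real.mul_rpow (by norm_num) (by positivity), ← Real.rpow_mul hε.le]
      _ ≤ 2 ^ (1 : ℝ) * ε ^ (-κ * (1 - α)) := by
          apply mul_le_mul_of_nonneg_right _ (by positivity)
          apply Real.rpow_le_rpow_of_exponent_le (by norm_num)
          linarith
      _ = _ := by rw [Real.rpow_one]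
  have hpow1 : ε * ε ^ (-κ * (1 - α)) = ε ^ qq m n k := by
    nth_rewrite 1 [← Real.rpow_one ε]
    rw [← Real.rpow_add hε, hq]
    congr 1
    linear_combination h1κ + hκα
  have hpow2 : ε ^ 2 * ε ^ (-κ) ≤ ε ^ qq m n k := by
    rw [← Real.rpow_natCast ε 2, ← Real.rpow_add hε]
    apply Real.rpow_le_rpow_of_exponent_ge hε hε1
    rw [hq]
    push_cast
    nlinarith
  have hbox1 : rt m (Rf k (c₁ * (1 + I))) + 2 * ε ≤ (c₁ ^ (-α) + 2) * ε ^ (s * e₀) := by
    rw [rt_Rf (by positivity)]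
    have h1 : (c₁ * (1 + (I : ℝ))) ^ (-α) ≤ c₁ ^ (-α) * ε ^ (s * e₀) := by
      rw [← hκα]
      have e : ε ^ (κ * α) = (ε ^ (-κ)) ^ (-α) := by
        rw [← Real.rpow_mul hε.le]
        congr 1
        ring
      rw [e, ← Real.mul_rpow hc₁.le (by positivity)]
      apply Real.rpow_le_rpow_of_nonpos (by positivity)
      · apply mul_le_mul_of_nonneg_left _ hc₁.le
        linarith
      · linarith
    have h2 : ε ≤ ε ^ (s * e₀) := by
      nth_rewrite 1 [← Real.rpow_one ε]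
      apply Real.rpow_le_rpow_of_exponent_ge hε hε1
      nlinarith
    linarith
  have hbox2 : rt n (Rf k (c₁ * (1 + I))) + 2 * ε ≤ (c₁ ^ (-β) + 2) * ε ^ e₀ := by
    rw [rt_Rf (by positivity)]
    have h1 : (c₁ * (1 + (I : ℝ))) ^ (-β) ≤ c₁ ^ (-β) * ε ^ e₀ := by
      rw [show ε ^ e₀ = ε ^ (κ * β) by rw [hκβ]]
      have e : ε ^ (κ * β) = (ε ^ (-κ)) ^ (-β) := by
        rw [← Real.rpow_mul hε.le]
        congr 1
        ring
      rw [e, ← Real.mul_rpow hc₁.le (by positivity)]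
      apply Real.rpow_le_rpow_of_nonpos (by positivity)
      · apply mul_le_mul_of_nonneg_left _ hc₁.le
        linarith
      · have : 0 ≤ β := by positivity
        linarith
    have h2 : ε ≤ ε ^ e₀ := by
      nth_rewrite 1 [← Real.rpow_one ε]
      exact Real.rpow_le_rpow_of_exponent_ge hε hε1 he1
    linarith
  have hA0 : 0 ≤ rt m (Rf k (c₁ * (1 + I))) + 2 * ε := by
    rw [rt_Rf (by positivity)]
    positivity
  have hB0 : 0 ≤ rt n (Rf k (c₁ * (1 + I))) + 2 * ε := by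
    rw [rt_Rf (by positivity)]
    positivity
  have hbox : 4 * (rt m (Rf k (c₁ * (1 + I))) + 2 * ε) * (rt n (Rf k (c₁ * (1 + I))) + 2 * ε) ≤
      4 * (c₁ ^ (-α) + 2) * (c₁ ^ (-β) + 2) * ε ^ qq m n k := by
    have h1 : (rt m (Rf k (c₁ * (1 + I))) + 2 * ε) * (rt n (Rf k (c₁ * (1 + I))) + 2 * ε) ≤
        ((c₁ ^ (-α) + 2) * ε ^ (s * e₀)) * ((c₁ ^ (-β) + 2) * ε ^ e₀) :=
      mul_le_mul hbox1 hbox2 hB0 (by positivity)
    have h2 : ε ^ (s * e₀) * ε ^ e₀ = ε ^ qq m n k := by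
      rw [← Real.rpow_add hε, hq]
      congr 1
      ring
    calc _ = 4 * ((rt m (Rf k (c₁ * (1 + I))) + 2 * ε) * (rt n (Rf k (c₁ * (1 + I))) + 2 * ε)) := by ring
      _ ≤ 4 * (((c₁ ^ (-α) + 2) * ε ^ (s * e₀)) * ((c₁ ^ (-β) + 2) * ε ^ e₀)) := by linarith
      _ = 4 * (c₁ ^ (-α) + 2) * (c₁ ^ (-β) + 2) * (ε ^ (s * e₀) * ε ^ e₀) := by ring
      _ = _ := by rw [h2]
  have hmain : (∑ i ∈ Finset.range I, (2 * (2 * rt m (Rf k (c₁ * (1 + i))) +
          2 * rt n (Rf k (c₁ * (1 + i)))) / ε + 1)) * (9 * Real.pi * ε ^ 2) ≤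
      (144 * Real.pi * C₂ + 18 * Real.pi) * ε ^ qq m n k := by
    have hpi := Real.pi_pos
    calc _ ≤ (8 * C₂ / ε * (I : ℝ) ^ (1 - α) + I) * (9 * Real.pi * ε ^ 2) :=
          mul_le_mul_of_nonneg_right hsum (by positivity)
      _ = 72 * Real.pi * C₂ * (ε * (I : ℝ) ^ (1 - α)) + 9 * Real.pi * (ε ^ 2 * I) := by
          field_simp
          ring
      _ ≤ 72 * Real.pi * C₂ * (2 * (ε * ε ^ (-κ * (1 - α)))) + 9 * Real.pi * (2 * (ε ^ 2 * ε ^ (-κ))) := by
          apply add_le_add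
          · apply mul_le_mul_of_nonneg_left _ (by positivity)
            have := mul_le_mul_of_nonneg_left hIp hε.le
            linarith
          · apply mul_le_mul_of_nonneg_left _ (by positivity)
            have := mul_le_mul_of_nonneg_left hI2 (show 0 ≤ ε ^ 2 by positivity)
            linarith
      _ ≤ 72 * Real.pi * C₂ * (2 * ε ^ qq m n k) + 9 * Real.pi * (2 * ε ^ qq m n k) := by
          rw [hpow1]
          apply add_le_add le_rfl
          apply mul_le_mul_of_nonneg_left _ (by positivity)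
          linarith
      _ = _ := by ring
  calc _ ≤ (144 * Real.pi * C₂ + 18 * Real.pi) * ε ^ qq m n k +
        4 * (c₁ ^ (-α) + 2) * (c₁ ^ (-β) + 2) * ε ^ qq m n k := add_le_add hmain hbox
    _ = _ := by ring

end Pool.Agent.Q166.DS
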